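import Mathlib

set_option autoImplicit false

/-!
# Polarized relations `(κ, κ⁺) → ((κ, β), (κ, α_n)_n)` with ordinal goals on stationary sets

Let `κ` be a regular cardinal and `θ` an infinite cardinal with `μ ^ θ < κ` for all `μ < κ`. Every
colouring of `S × B`, where `S ⊆ κ` is stationary and `B` is a well-ordered set with more than
`κ^{<κ}` elements, with the colour `none` and further colours `some n`, `n ∈ N`, `|N|⁺ < κ`, has a
rectangle `H₀ × H₁` with `H₀ ⊆ S` stationary such that either `H₁` has a prescribed order type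
`β < κ⁺` and the colour is `none`, or `H₁` has a prescribed order type `α_n < θ⁺` and the colour is
`some n`. More generally the nonstationary ideal may be replaced by any normal ideal on `κ`.

Proof. Suppose that there is no such rectangle. The rows in `S` which have, for some `n`, a set of
places of type `α_n` and colour `some n` in a given set of fewer than `κ` columns form a set in the
ideal (`tr_small`), and all other rows have at most `μ = |N| + θ` places of a colour different from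
`none` there. It follows that all but at most `μ` columns have an `I`-positive set of places in `S`
of the colour `none`. Hence there is a column `y₀` with an `I`-positive set `X ⊆ S` of places of the
colour `none` such that for each `L ⊆ X` of size less than `κ` more than `κ^{<κ}` columns have the
colour `none` on `L`. So there are successive intervals `J_w`, `w < β`, of columns, each of which
contains, for each such `L`, `κ` columns with the colour `none` on `L`. By recursion one chooses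
distinct columns `y_i`, `i < κ`, such that `y_i` has the colour `none` on `X ∩ i`, and such that
`μ⁺` disjoint families of them have one member in each of the `β` intervals. By normality almost
all rows `x ∈ X` have at most `μ` places `y_i` of a colour different from `none`: if the places `y_i`,
`i < x`, contain a set of type `α_n` of the colour `some n`, then its indices are cofinal in `x`,
for otherwise `x` is in a diagonal union of sets in the ideal; so these places are the union of at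
most `θ` sets of size at most `μ`. Therefore almost all rows in `X` have the colour `none` on one of
the `μ⁺` families, and by the completeness of the ideal an `I`-positive set of rows has the colour
`none` on the same family, a contradiction.
-/

namespace Pool.Agent.Results.MP_5cad05_lc.OrdinalGoals

open Set
open Cardinal hiding univ

universe u

/-- The generalized continuum hypothesis (in the universe `u`). -/
def GCH : Prop := ∀ κ : Cardinal.{u}, ℵ₀ ≤ κ → (2 : Cardinal.{u}) ^ κ = Order.succ κ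

/-- The order type of a subset of a well-ordered set. -/
noncomputable def otp {B : Type u} [LinearOrder B] [WellFoundedLT B] (s : Set B) : Ordinal.{u} :=
  Ordinal.type (fun a b : s => a < b)

/-- The polarized relation `(κ, B) → ((Large, β), (Large, α n)_{n ∈ N})` for a cardinal `κ`, a notion
`Large` of largeness of subsets of `κ`, a well-ordered set `B` (for instance a cardinal) and
ordinals `β` and `α n`, `n ∈ N`: for every large `S ⊆ κ` and every colouring `c` of `κ × B` with the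
special colour `none` and the further colours `some n`, `n ∈ N`, there are a large set `H₀ ⊆ S` and
a set `H₁ ⊆ B` such that either `H₁` has the order type `β` and all of `H₀ × H₁` has the colour
`none`, or for some `n` the set `H₁` has the order type `α n` and all of `H₀ × H₁` has the colour
`some n`. -/
def OrdPolarized {κ : Cardinal.{u}} (Large : Set κ.ord.ToType → Prop) (B : Type u)
    [LinearOrder B] [WellFoundedLT B] (N : Type u) (β : Ordinal.{u}) (α : N → Ordinal.{u}) :
    Prop :=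
  ∀ S : Set κ.ord.ToType, Large S → ∀ c : κ.ord.ToType → B → Option N,
    (∃ (H₀ : Set κ.ord.ToType) (H₁ : Set B), H₀ ⊆ S ∧ Large H₀ ∧ otp H₁ = β ∧
      ∀ x ∈ H₀, ∀ y ∈ H₁, c x y = none) ∨
    (∃ (n : N) (H₀ : Set κ.ord.ToType) (H₁ : Set B), H₀ ⊆ S ∧ Large H₀ ∧ otp H₁ = α n ∧
      ∀ x ∈ H₀, ∀ y ∈ H₁, c x y = some n)

/-- The relation `(κ, lam) → ((η₀, η₁), (η₂, η₃))` of the problem: for all sets `A`, `B` of sizes
`κ`, `lam` and every two-colouring `c` of `A × B` there are `H₀ ⊆ A`, `H₁ ⊆ B` with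
`|H₀| = η₀`, `|H₁| = η₂` and all of `H₀ × H₁` in the colour `false` (the class `Δ₀`), or
`|H₀| = η₁`, `|H₁| = η₃` and all of `H₀ × H₁` in the colour `true` (the class `Δ₁`). -/
def Polarized (κ lam η₀ η₁ η₂ η₃ : Cardinal.{u}) : Prop :=
  ∀ (A B : Type u), #A = κ → #B = lam → ∀ c : A → B → Bool,
    (∃ (H₀ : Set A) (H₁ : Set B), #H₀ = η₀ ∧ #H₁ = η₂ ∧ ∀ x ∈ H₀, ∀ y ∈ H₁, c x y = false) ∨
    (∃ (H₀ : Set A) (H₁ : Set B), #H₀ = η₁ ∧ #H₁ = η₃ ∧ ∀ x ∈ H₀, ∀ y ∈ H₁, c x y = true)

/-- A normal ideal on the regular cardinal `κ` (the set `κ.ord.ToType` of the ordinals below `κ`):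
a family of subsets of `κ` closed under subsets and finite unions which contains the bounded sets
and is closed under diagonal unions. -/
structure IsNormalIdeal (κ : Cardinal.{u}) (I : Set (Set κ.ord.ToType)) : Prop where
  subset : ∀ s t : Set κ.ord.ToType, s ⊆ t → t ∈ I → s ∈ I
  union : ∀ s t : Set κ.ord.ToType, s ∈ I → t ∈ I → s ∪ t ∈ I
  bounded : ∀ a : κ.ord.ToType, Iic a ∈ I
  diag : ∀ E : κ.ord.ToType → Set κ.ord.ToType, (∀ i, E i ∈ I) → {x | ∃ i < x, x ∈ E i} ∈ I

/-- Closed unbounded subsets of `κ`. -/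
def IsClub {κ : Cardinal.{u}} (C : Set κ.ord.ToType) : Prop :=
  (∀ a, ∃ c ∈ C, a < c) ∧
    ∀ d : κ.ord.ToType, (∃ a, a < d) → (∀ a < d, ∃ c ∈ C, a < c ∧ c < d) → d ∈ C

/-- Stationary subsets of `κ`. -/
def IsStationary {κ : Cardinal.{u}} (S : Set κ.ord.ToType) : Prop :=
  ∀ C : Set κ.ord.ToType, IsClub C → (S ∩ C).Nonempty

/-- transfinite recursion with a side condition on the set of earlier values -/
theorem exists_seq {I α : Type u} [LinearOrder I] [WellFoundedLT I] (P : I → Set α → α → Prop)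
    (h : ∀ (i : I) (f : Iio i → α), ∃ x, P i (range f) x) :
    ∃ g : I → α, ∀ i, P i (g '' Iio i) (g i) := by
  classical
  choose F hF using h
  let g : I → α := WellFounded.fix (C := fun _ => α) (wellFounded_lt (α := I))
    (fun i r => F i (fun j => r j.1 j.2))
  have hg : ∀ i, g i = F i (fun j => g j.1) := fun i =>
    WellFounded.fix_eq (C := fun _ => α) (wellFounded_lt (α := I)) _ i
  refine ⟨g, fun i => ?_⟩
  have h1 := hF i (fun j => g j.1)
  rw [← hg i] at h1
  convert h1 using 1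
  ext x
  simp

theorem exists_sub {α : Type u} {κ : Cardinal.{u}} (s : Set α) (h : κ ≤ #s) :
    ∃ t ⊆ s, #t = κ := by
  obtain ⟨t, ht, h'⟩ := le_mk_iff_exists_subset.1 h
  exact ⟨t, ht, h'⟩

/-- the number of subsets of size less than `κ` of a set of size `κ` -/
theorem card_small {κ : Cardinal.{u}} (hκ : ℵ₀ ≤ κ) (A : Type u) (hA : #A = κ) :
    #{L : Set A // #L < κ} ≤ κ ^< κ := by
  let W : κ.ord.ToType → Type u := fun i => (Ordinal.ToType.toOrd i : Ordinal.{u}).ToType
  have hW : ∀ i, #(W i) < κ := by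
    intro i
    have h1 : (Ordinal.ToType.toOrd i : Ordinal.{u}) < κ.ord := (Ordinal.ToType.toOrd i).2
    rw [lt_ord] at h1
    simpa [W] using h1
  let g : (Σ i : κ.ord.ToType, (W i → A)) → {L : Set A // #L < κ} := fun p =>
    ⟨range p.2, mk_range_le.trans_lt (hW p.1)⟩
  have hg : Function.Surjective g := by
    rintro ⟨s, hs⟩
    have h1 : (#s).ord < κ.ord := ord_lt_ord.2 hs
    let i : κ.ord.ToType := Ordinal.ToType.mk ⟨(#s).ord, h1⟩
    have h2 : #(W i) = #s := by
      simp [W, i]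
    obtain ⟨e⟩ := Cardinal.eq.1 h2
    refine ⟨⟨i, fun w => (e w : A)⟩, ?_⟩
    apply Subtype.ext
    change range (fun w => (e w : A)) = s
    ext x
    constructor
    · rintro ⟨w, rfl⟩
      exact (e w).2
    · intro hx
      exact ⟨e.symm ⟨x, hx⟩, by simp⟩
  refine (mk_le_of_surjective hg).trans ?_
  rw [mk_sigma]
  have h3 : ∀ i : κ.ord.ToType, #(W i → A) ≤ κ ^< κ := by
    intro i
    rw [← power_def, hA]
    exact le_powerlt κ (hW i)
  refine (sum_le_sum _ (fun _ => κ ^< κ) h3).trans ?_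
  simp only [sum_const, lift_id, mk_toType, card_ord]
  have h4 : κ ≤ κ ^< κ := by
    have := le_powerlt κ (one_lt_aleph0.trans_le hκ)
    rwa [power_one] at this
  exact (mul_le_mul' h4 le_rfl).trans (mul_eq_self (hκ.trans h4)).le

theorem iio_lt {κ : Cardinal.{u}} (i : κ.ord.ToType) : #(Iio i) < κ := by
  have h : #(Iio i) < #κ.ord.ToType := Cardinal.mk_Iio_lt i (by
    rw [mk_toType, card_ord, Ordinal.type_toType])
  rwa [mk_toType, card_ord] at h

theorem iic_lt {κ : Cardinal.{u}} (hκ : ℵ₀ ≤ κ) (i : κ.ord.ToType) : #(Iic i) < κ := by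
  have h4 : Iic i = insert i (Iio i) := by
    ext t; simp [le_iff_eq_or_lt]
  rw [h4]
  exact mk_insert_le.trans_lt (add_lt_of_lt hκ (iio_lt i) (one_lt_aleph0.trans_le hκ))

/-- a set of fewer than `κ` elements of a regular cardinal `κ` is bounded -/
theorem bounded_of_lt {κ : Cardinal.{u}} (hκ : κ.IsRegular) (S : Set κ.ord.ToType)
    (hS : #S < κ) : ∃ m, ∀ s ∈ S, s < m := by
  by_contra hcon
  push Not at hcon
  have h1 : (univ : Set κ.ord.ToType) ⊆ ⋃ s : S, Iic s.1 := by
    intro m _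
    obtain ⟨s, hs, hm⟩ := hcon m
    exact mem_iUnion.2 ⟨⟨s, hs⟩, hm⟩
  have h5 : #(univ : Set κ.ord.ToType) < κ := (mk_le_mk_of_subset h1).trans_lt
    ((card_iUnion_lt_iff_forall_of_isRegular hκ hS).2 fun s => iic_lt hκ.aleph0_le s.1)
  rw [mk_univ, mk_toType, card_ord] at h5
  exact lt_irrefl _ h5

theorem exists_gt' {κ : Cardinal.{u}} (hκ : κ.IsRegular) (a : κ.ord.ToType) :
    ∃ b, a < b := by
  obtain ⟨m, hm⟩ := bounded_of_lt hκ {a} (by
    rw [mk_singleton]; exact one_lt_aleph0.trans_le hκ.aleph0_le)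
  exact ⟨m, hm a rfl⟩

theorem IsNormalIdeal.iUnion {κ : Cardinal.{u}} (hκ : κ.IsRegular) {I : Set (Set κ.ord.ToType)}
    (hI : IsNormalIdeal κ I) {ι : Type u} (hι : #ι < κ) (E : ι → Set κ.ord.ToType)
    (hE : ∀ j, E j ∈ I) : (⋃ j, E j) ∈ I := by
  classical
  obtain ⟨g⟩ : Nonempty (ι ↪ κ.ord.ToType) := by
    rw [← Cardinal.le_def, mk_toType, card_ord]
    exact hι.le
  obtain ⟨b, hb⟩ := bounded_of_lt hκ (range g) (mk_range_le.trans_lt hι)
  have h1 : ∀ i : κ.ord.ToType, (⋃ j : {j // g j = i}, E j.1) ∈ I := by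
    intro i
    by_cases hi : ∃ j, g j = i
    · obtain ⟨j, hj⟩ := hi
      refine hI.subset _ (E j) ?_ (hE j)
      intro x hx
      obtain ⟨⟨j', hj'⟩, hx⟩ := mem_iUnion.1 hx
      obtain rfl : j' = j := g.injective (hj'.trans hj.symm)
      exact hx
    · refine hI.subset _ (Iic i) ?_ (hI.bounded i)
      intro x hx
      obtain ⟨⟨j', hj'⟩, hx⟩ := mem_iUnion.1 hx
      exact absurd ⟨j', hj'⟩ hi
  refine hI.subset _ _ ?_ (hI.union _ _ (hI.bounded b) (hI.diag _ h1))
  intro x hx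
  obtain ⟨j, hj⟩ := mem_iUnion.1 hx
  rcases le_or_gt x b with h | h
  · exact Or.inl h
  · exact Or.inr ⟨g j, (hb _ ⟨j, rfl⟩).trans h, mem_iUnion.2 ⟨⟨j, rfl⟩, hj⟩⟩

theorem IsClub.inter_Ioi {κ : Cardinal.{u}} {C : Set κ.ord.ToType} (hC : IsClub C)
    (b : κ.ord.ToType) : IsClub (C ∩ Ioi b) := by
  refine ⟨fun a => ?_, fun d hd h => ?_⟩
  · obtain ⟨c, hc, hac⟩ := hC.1 (max a b)
    exact ⟨c, ⟨hc, (le_max_right a b).trans_lt hac⟩, (le_max_left a b).trans_lt hac⟩
  · refine ⟨hC.2 d hd fun a ha => ?_, ?_⟩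
    · obtain ⟨c, hc, h1, h2⟩ := h a ha
      exact ⟨c, hc.1, h1, h2⟩
    · obtain ⟨a, ha⟩ := hd
      obtain ⟨c, hc, _, h2⟩ := h a ha
      exact hc.2.trans h2

/-- the diagonal intersection of clubs is a club -/
theorem IsClub.diag {κ : Cardinal.{u}} (hκ : κ.IsRegular) (hκ' : ℵ₀ < κ)
    (C : κ.ord.ToType → Set κ.ord.ToType) (hC : ∀ i, IsClub (C i)) :
    IsClub {x | ∀ i < x, x ∈ C i} := by
  classical
  constructor
  · intro a
    have hstep : ∀ b : κ.ord.ToType, ∃ b', b < b' ∧ ∀ i ≤ b, ∃ c ∈ C i, b < c ∧ c < b' := by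
      intro b
      choose f hf1 hf2 using fun i => (hC i).1 b
      obtain ⟨m, hm⟩ := bounded_of_lt hκ (f '' Iic b)
        (mk_image_le.trans_lt (iic_lt hκ.aleph0_le b))
      exact ⟨m, (hf2 b).trans (hm _ ⟨b, self_mem_Iic, rfl⟩),
        fun i hi => ⟨f i, hf1 i, hf2 i, hm _ ⟨i, hi, rfl⟩⟩⟩
    choose st hst1 hst2 using hstep
    let s : ℕ → κ.ord.ToType := fun n => st^[n] a
    have hs : ∀ n, s (n + 1) = st (s n) := fun n => Function.iterate_succ_apply' st n a
    have hmono : StrictMono s := strictMono_nat_of_lt_succ fun n => by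
      rw [hs]; exact hst1 _
    have hcount : #(range s) < κ := (countable_range s).le_aleph0.trans_lt hκ'
    obtain ⟨m, hm⟩ := bounded_of_lt hκ (range s) hcount
    let U : Set κ.ord.ToType := {b | ∀ n, s n < b}
    have hU : U.Nonempty := ⟨m, fun n => hm _ ⟨n, rfl⟩⟩
    let d := (wellFounded_lt (α := κ.ord.ToType)).min U hU
    have hd : d ∈ U := WellFounded.min_mem _ U hU
    have hd2 : ∀ e < d, ∃ n, e ≤ s n := by
      intro e he
      by_contra hcon
      push Not at hcon
      exact (wellFounded_lt (α := κ.ord.ToType)).not_lt_min U hcon he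
    refine ⟨d, ?_, hd 0⟩
    intro i hi
    refine (hC i).2 d ⟨i, hi⟩ fun e he => ?_
    obtain ⟨n, hn⟩ := hd2 i hi
    obtain ⟨k, hk⟩ := hd2 e he
    obtain ⟨c, hc, h1, h2⟩ := hst2 (s (max n k)) i (hn.trans (hmono.monotone (le_max_left n k)))
    refine ⟨c, hc, (hk.trans (hmono.monotone (le_max_right n k))).trans_lt h1, ?_⟩
    rw [← hs] at h2
    exact h2.trans (hd _)
  · intro d hd h i hi
    refine (hC i).2 d hd fun a ha => ?_
    obtain ⟨c, hc, h1, h2⟩ := h (max a i) (max_lt ha hi)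
    exact ⟨c, hc i ((le_max_right a i).trans_lt h1), (le_max_left a i).trans_lt h1, h2⟩

/-- the ideal of the nonstationary sets is normal -/
theorem isNormalIdeal_nonstationary {κ : Cardinal.{u}} (hκ : κ.IsRegular) (hκ' : ℵ₀ < κ) :
    IsNormalIdeal κ {S | ¬ IsStationary S} := by
  classical
  have hne : ∀ S : Set κ.ord.ToType, ¬ IsStationary S → ∃ C, IsClub C ∧ S ∩ C = ∅ := by
    intro S hS
    unfold IsStationary at hS
    push Not at hS
    exact hS
  have hns : ∀ (S C : Set κ.ord.ToType), IsClub C → S ∩ C = ∅ → ¬ IsStationary S := by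
    intro S C hC h1 h2
    have := h2 C hC
    rw [h1] at this
    exact this.ne_empty rfl
  refine ⟨?_, ?_, ?_, ?_⟩
  · intro s t hst ht
    obtain ⟨C, hC, h1⟩ := hne t ht
    refine hns s C hC (subset_empty_iff.1 ?_)
    rw [← h1]
    exact inter_subset_inter_left _ hst
  · intro s t hs ht
    obtain ⟨C, hC, h1⟩ := hne s hs
    obtain ⟨D, hD, h2⟩ := hne t ht
    obtain ⟨a₀⟩ : Nonempty κ.ord.ToType := by
      rw [← mk_ne_zero_iff, mk_toType, card_ord]
      exact (aleph0_pos.trans hκ').ne'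
    obtain ⟨a₁, ha₁⟩ := exists_gt' hκ a₀
    have h3 := (IsClub.diag hκ hκ' (fun i => if i = a₀ then C else D) (by
      intro i
      by_cases hi : i = a₀
      · simp only [hi, if_true]; exact hC
      · simp only [if_neg hi]; exact hD)).inter_Ioi a₁
    refine hns _ _ h3 (subset_empty_iff.1 ?_)
    rintro x ⟨hx, hx1, hx2⟩
    have hx2' : a₁ < x := hx2
    have h4 : x ∈ C := by
      have := hx1 a₀ (ha₁.trans hx2')
      simpa using this
    have h5 : x ∈ D := by
      have := hx1 a₁ hx2'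
      simpa [ha₁.ne'] using this
    rcases hx with hx | hx
    · rw [← h1]; exact ⟨hx, h4⟩
    · rw [← h2]; exact ⟨hx, h5⟩
  · intro a
    have h3 : IsClub (univ : Set κ.ord.ToType) :=
      ⟨fun a => by obtain ⟨b, hb⟩ := exists_gt' hκ a; exact ⟨b, mem_univ _, hb⟩,
        fun d _ _ => mem_univ _⟩
    refine hns _ _ (h3.inter_Ioi a) (subset_empty_iff.1 ?_)
    rintro x ⟨hx, _, hx2⟩
    have h4 : a < x := hx2
    have h5 : x ≤ a := hx
    exact absurd h4 (not_lt.2 h5)
  · intro E hE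
    choose C hC h1 using fun i => hne (E i) (hE i)
    refine hns _ _ (IsClub.diag hκ hκ' C hC) (subset_empty_iff.1 ?_)
    rintro x ⟨⟨i, hi, hx⟩, hx2⟩
    rw [← h1 i]
    exact ⟨hx, hx2 i hi⟩

/-- a stationary set has `κ` elements -/
theorem IsStationary.mk {κ : Cardinal.{u}} (hκ : κ.IsRegular) {S : Set κ.ord.ToType}
    (hS : IsStationary S) : #S = κ := by
  refine le_antisymm ((mk_set_le _).trans (by rw [mk_toType, card_ord])) ?_
  by_contra hcon
  push Not at hcon
  obtain ⟨m, hm⟩ := bounded_of_lt hκ S hcon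
  have h3 : IsClub (univ : Set κ.ord.ToType) :=
    ⟨fun a => by obtain ⟨b, hb⟩ := exists_gt' hκ a; exact ⟨b, mem_univ _, hb⟩,
      fun d _ _ => mem_univ _⟩
  obtain ⟨x, hx, _, hx2⟩ := hS _ (h3.inter_Ioi m)
  exact absurd (hm x hx) (not_lt.2 (le_of_lt hx2))

theorem isStationary_univ {κ : Cardinal.{u}} (hκ : κ.IsRegular) :
    IsStationary (univ : Set κ.ord.ToType) := by
  intro C hC
  obtain ⟨a₀⟩ : Nonempty κ.ord.ToType := by
    rw [← mk_ne_zero_iff, mk_toType, card_ord]
    exact (aleph0_pos.trans_le hκ.aleph0_le).ne'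
  obtain ⟨c, hc, _⟩ := hC.1 a₀
  exact ⟨c, mem_univ _, hc⟩

/-- a set of at most `τ` elements of the well-order `τ⁺` is bounded -/
theorem bounded_of_le {τ : Cardinal.{u}} (hτ : ℵ₀ ≤ τ) (S : Set (Order.succ τ).ord.ToType)
    (hS : #S ≤ τ) : ∃ m, ∀ s ∈ S, s < m := by
  by_contra hcon
  push Not at hcon
  have h1 : (univ : Set (Order.succ τ).ord.ToType) ⊆ ⋃ s : S, Iic s.1 := by
    intro m _
    obtain ⟨s, hs, hm⟩ := hcon m
    exact mem_iUnion.2 ⟨⟨s, hs⟩, hm⟩
  have h2 : ∀ s : (Order.succ τ).ord.ToType, #(Iic s) ≤ τ := by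
    intro s
    have h3 : #(Iio s) < #(Order.succ τ).ord.ToType := Cardinal.mk_Iio_lt s (by
      rw [mk_toType, card_ord, Ordinal.type_toType])
    rw [mk_toType, card_ord, Order.lt_succ_iff] at h3
    have h4 : Iic s = insert s (Iio s) := by
      ext t; simp [le_iff_eq_or_lt]
    rw [h4]
    exact mk_insert_le.trans (by
      calc #(Iio s) + 1 ≤ τ + τ := add_le_add h3 (one_lt_aleph0.le.trans hτ)
        _ = τ := add_eq_self hτ)
  have h6 : #(⋃ s : S, Iic s.1) ≤ τ := by
    refine (mk_iUnion_le _).trans ?_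
    have h7 : (⨆ s : S, #(Iic s.1)) ≤ τ := ciSup_le' fun s => h2 s.1
    exact (mul_le_mul' hS h7).trans (mul_eq_self hτ).le
  have h5 : #(univ : Set (Order.succ τ).ord.ToType) ≤ τ := (mk_le_mk_of_subset h1).trans h6
  rw [mk_univ, mk_toType, card_ord] at h5
  exact absurd (Order.lt_succ τ) (not_lt.2 h5)

/-- The intervals: if all the sets `u L` have more than `τ` elements, there are `β` successive
intervals meeting every `u L` in at least `κ` elements. -/
theorem intervals {τ κ : Cardinal.{u}} (hτ : ℵ₀ ≤ τ) (hκτ : κ ≤ τ) {ι : Type u} (hι : #ι ≤ τ)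
    (u : ι → Set (Order.succ τ).ord.ToType) (hu : ∀ L, τ < #(u L))
    {W : Type u} [LinearOrder W] [WellFoundedLT W] (hW : #W ≤ τ) :
    ∃ J : W → Set (Order.succ τ).ord.ToType,
      (∀ v w, v < w → ∀ y ∈ J v, ∀ y' ∈ J w, y < y') ∧ ∀ w L, κ ≤ #(J w ∩ u L : Set _) := by
  classical
  obtain ⟨g, hg⟩ := exists_seq (I := W) (α := (Order.succ τ).ord.ToType) (fun _ F d =>
    ∀ L : ι, κ ≤ #({y | (∀ e ∈ F, e < y) ∧ y ≤ d} ∩ u L : Set _)) (by
    intro i f
    have hF : #(range f) ≤ τ := mk_range_le.trans ((mk_set_le _).trans hW)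
    obtain ⟨m, hm⟩ := bounded_of_le hτ (range f) hF
    have h1 : ∀ L : ι, ∃ t ⊆ u L ∩ Ici m, #t = κ := by
      intro L
      refine exists_sub _ ?_
      by_contra hcon
      push Not at hcon
      have h2 : #(Iio m) ≤ τ := by
        have h3 : #(Iio m) < #(Order.succ τ).ord.ToType := Cardinal.mk_Iio_lt m (by
          rw [mk_toType, card_ord, Ordinal.type_toType])
        rwa [mk_toType, card_ord, Order.lt_succ_iff] at h3
      have h4 : u L ⊆ (u L ∩ Ici m) ∪ Iio m := by
        intro y hy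
        rcases lt_or_ge y m with h | h
        · exact Or.inr h
        · exact Or.inl ⟨hy, h⟩
      have h5 : #(u L) ≤ τ := (mk_le_mk_of_subset h4).trans ((mk_union_le _ _).trans
        ((add_le_add (hcon.le.trans hκτ) h2).trans (add_eq_self hτ).le))
      exact absurd (hu L) (not_lt.2 h5)
    choose t ht htc using h1
    have h6 : #(⋃ L, t L) ≤ τ := by
      refine (mk_iUnion_le _).trans ?_
      have h7 : (⨆ L, #(t L)) ≤ τ := ciSup_le' fun L => (htc L).le.trans hκτ
      exact (mul_le_mul' hι h7).trans (mul_eq_self hτ).le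
    obtain ⟨d, hd⟩ := bounded_of_le hτ _ h6
    refine ⟨d, fun L => ?_⟩
    rw [← htc L]
    refine mk_le_mk_of_subset fun y hy => ⟨⟨?_, ?_⟩, (ht L hy).1⟩
    · intro e he
      exact (hm e he).trans_le (ht L hy).2
    · exact (hd y (mem_iUnion.2 ⟨L, hy⟩)).le)
  refine ⟨fun w => {y | (∀ e ∈ g '' Iio w, e < y) ∧ y ≤ g w}, ?_, fun w L => hg w L⟩
  intro v w hvw y hy y' hy'
  exact hy.2.trans_lt (hy'.1 (g v) ⟨v, hvw, rfl⟩)


/-! ### The core of the argument -/

section

variable {κ θ : Cardinal.{u}} {A B N : Type u}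

theorem theta_lt (hκ : κ.IsRegular) (hpow : ∀ μ < κ, μ ^ θ < κ) : θ < κ := by
  have h2 : (2 : Cardinal.{u}) < κ := (natCast_lt_aleph0 (n := 2)).trans_le hκ.aleph0_le
  exact (cantor θ).trans (hpow 2 h2)

theorem succ_theta_lt (hκ : κ.IsRegular) (hpow : ∀ μ < κ, μ ^ θ < κ) : Order.succ θ < κ := by
  have h2 : (2 : Cardinal.{u}) < κ := (natCast_lt_aleph0 (n := 2)).trans_le hκ.aleph0_le
  exact (Order.succ_le_of_lt (cantor θ)).trans_lt (hpow 2 h2)

/-- A row with more than `|N| + θ` places of a colour different from `none` in `K` has, for some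
`n`, a set of places in `K` of the order type `α n` and the colour `some n`. -/
theorem exists_mono [LinearOrder B] [WellFoundedLT B] (hθ : ℵ₀ ≤ θ) (α : N → Ordinal.{u})
    (hα : ∀ n, (α n).card ≤ θ) (c : A → B → Option N) (K : Set B) (x : A)
    (hx : max #N θ < #(K ∩ {y | ¬ c x y = none} : Set B)) :
    ∃ (n : N) (f : (α n).ToType → B), StrictMono f ∧ (∀ a, f a ∈ K) ∧
      ∀ a, c x (f a) = some n := by
  obtain ⟨n, hn⟩ : ∃ n : N, θ < #(K ∩ {y | c x y = some n} : Set B) := by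
    by_contra hcon
    push Not at hcon
    have h2 : (K ∩ {y | ¬ c x y = none} : Set B) ⊆ ⋃ n : N, K ∩ {y | c x y = some n} := by
      rintro y ⟨hy, hy2⟩
      obtain ⟨n, hn⟩ := Option.ne_none_iff_exists'.1 hy2
      exact mem_iUnion.2 ⟨n, hy, hn⟩
    have h3 : #(⋃ n : N, K ∩ {y | c x y = some n} : Set B) ≤ max #N θ := by
      refine (mk_iUnion_le _).trans ?_
      have h4 : (⨆ n : N, #(K ∩ {y | c x y = some n} : Set B)) ≤ θ := ciSup_le' hcon
      refine (mul_le_mul' (le_max_left _ θ) (h4.trans (le_max_right #N θ))).trans ?_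
      exact (mul_eq_self (hθ.trans (le_max_right _ _))).le
    exact absurd hx (not_lt.2 ((mk_le_mk_of_subset h2).trans h3))
  set S : Set B := K ∩ {y | c x y = some n} with hS
  have h5 : α n ≤ Ordinal.type (fun a b : S => a < b) := by
    by_contra hcon
    push Not at hcon
    have h6 := Ordinal.card_le_card hcon.le
    rw [Ordinal.card_type] at h6
    exact absurd hn (not_lt.2 (h6.trans (hα n)))
  have h6 : Ordinal.type (fun a b : (α n).ToType => a < b) ≤
      Ordinal.type (fun a b : S => a < b) := by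
    rwa [Ordinal.type_toType]
  obtain ⟨e⟩ := Ordinal.type_le_iff'.1 h6
  exact ⟨n, fun a => (e a).1, fun a b hab => e.map_rel_iff.2 hab, fun a => (e a).2.1,
    fun a => (e a).2.2⟩

/-- The set of the rows in `S` which have, for some `n`, a set of places in `K` of the order type
`α n` and the colour `some n`. -/
def Tr [LinearOrder B] (S : Set A) (α : N → Ordinal.{u}) (c : A → B → Option N) (K : Set B) :
    Set A :=
  {x | x ∈ S ∧ ∃ (n : N) (f : (α n).ToType → B), StrictMono f ∧ (∀ a, f a ∈ K) ∧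
      ∀ a, c x (f a) = some n}

/-- If no colour `some n` has a large rectangle with columns of order type `α n`, then for every
set `K` of fewer than `κ` columns the set `Tr S α c K` is small. -/
theorem tr_small [LinearOrder B] (hκ : κ.IsRegular)
    (hpow : ∀ μ < κ, μ ^ θ < κ) (hN : #N < κ) (α : N → Ordinal.{u}) (hα : ∀ n, (α n).card ≤ θ)
    {I : Set (Set κ.ord.ToType)} (hI : IsNormalIdeal κ I) (S : Set κ.ord.ToType)
    (c : κ.ord.ToType → B → Option N)
    (h1 : ∀ n, ¬ ∃ (H₀ : Set κ.ord.ToType) (f : (α n).ToType → B), H₀ ⊆ S ∧ H₀ ∉ I ∧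
      StrictMono f ∧ ∀ x ∈ H₀, ∀ a, c x (f a) = some n)
    (K : Set B) (hK : #K < κ) : Tr S α c K ∈ I := by
  classical
  have hs : ℵ₀ ≤ κ := hκ.aleph0_le
  let P : Type u := Σ n : N, {f : (α n).ToType → K // StrictMono f}
  have hsub : Tr S α c K ⊆ ⋃ p : P, {x | x ∈ S ∧ ∀ a, c x (p.2.1 a) = some p.1} := by
    rintro x ⟨hxS, n, f, hf, hfK, hc⟩
    exact mem_iUnion.2 ⟨⟨n, ⟨fun a => ⟨f a, hfK a⟩, fun a b hab => hf hab⟩⟩, hxS, hc⟩
  have hcard : #P < κ := by
    have h2 : ∀ n : N, #{f : (α n).ToType → K // StrictMono f} ≤ (#K + 1) ^ θ := by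
      intro n
      refine (mk_subtype_le _).trans ?_
      rw [← power_def, mk_toType]
      refine (power_le_power_right (self_le_add_right #K 1)).trans ?_
      exact power_le_power_left (by simp) (hα n)
    have h3 : #P ≤ Cardinal.sum fun _ : N => (#K + 1) ^ θ := by
      rw [mk_sigma]
      exact sum_le_sum _ _ h2
    refine h3.trans_lt ?_
    rw [sum_const, lift_id, lift_id]
    exact mul_lt_of_lt hs hN (hpow _ (add_lt_of_lt hs hK (one_lt_aleph0.trans_le hs)))
  refine hI.subset _ _ hsub (hI.iUnion hκ hcard _ fun p => ?_)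
  by_contra hlt
  exact h1 p.1 ⟨_, fun a => (p.2.1 a : B), fun x hx => hx.1, hlt, fun a b hab => p.2.2 hab,
    fun x hx a => hx.2 a⟩

/-- The core of the argument, for the set of columns `τ⁺`, where `τ ≥ κ^{<κ}`. -/
theorem core (hκ : κ.IsRegular) (hθ : ℵ₀ ≤ θ) (hpow : ∀ μ < κ, μ ^ θ < κ)
    (hN : Order.succ #N < κ) (β : Ordinal.{u}) (hβ : β.card ≤ κ) (α : N → Ordinal.{u})
    (hα : ∀ n, (α n).card ≤ θ) (τ : Cardinal.{u}) (hτκ : κ ^< κ ≤ τ)
    {I : Set (Set κ.ord.ToType)} (hI : IsNormalIdeal κ I) (S : Set κ.ord.ToType) (hS : S ∉ I)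
    (c : κ.ord.ToType → (Order.succ τ).ord.ToType → Option N)
    (h0 : ¬ ∃ (H₀ : Set κ.ord.ToType) (f : β.ToType → (Order.succ τ).ord.ToType), H₀ ⊆ S ∧
      H₀ ∉ I ∧ StrictMono f ∧ ∀ x ∈ H₀, ∀ b, c x (f b) = none)
    (h1 : ∀ n, ¬ ∃ (H₀ : Set κ.ord.ToType) (f : (α n).ToType → (Order.succ τ).ord.ToType),
      H₀ ⊆ S ∧ H₀ ∉ I ∧ StrictMono f ∧ ∀ x ∈ H₀, ∀ a, c x (f a) = some n) : False := by
  classical
  have hs : ℵ₀ ≤ κ := hκ.aleph0_le
  set μ : Cardinal.{u} := max #N θ with hμ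
  have hμθ : ℵ₀ ≤ μ := hθ.trans (le_max_right _ _)
  have hμκ : Order.succ μ < κ := by
    rcases le_total #N θ with h | h
    · rw [hμ, max_eq_right h]; exact succ_theta_lt hκ hpow
    · rw [hμ, max_eq_left h]; exact hN
  have hκτ : κ ≤ τ := by
    have := le_powerlt κ (one_lt_aleph0.trans_le hs)
    rw [power_one] at this
    exact this.trans hτκ
  have hτ : ℵ₀ ≤ τ := hs.trans hκτ
  have htr : ∀ K : Set (Order.succ τ).ord.ToType, #K < κ → Tr S α c K ∈ I := fun K hK =>
    tr_small hκ hpow ((Order.le_succ _).trans_lt hN) α hα hI S c h1 K hK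
  have hle : ∀ (K : Set (Order.succ τ).ord.ToType) (x : κ.ord.ToType), x ∈ S →
      x ∉ Tr S α c K → #(K ∩ {y | ¬ c x y = none} : Set _) ≤ μ := by
    intro K x hxS hx
    by_contra hlt
    push Not at hlt
    obtain ⟨n, f, hf, hfK, hc⟩ := exists_mono hθ α hα c K x hlt
    exact hx ⟨hxS, n, f, hf, hfK, hc⟩
  -- few columns have a small zero set
  have hZ : #{y : (Order.succ τ).ord.ToType | {x | x ∈ S ∧ c x y = none} ∈ I} ≤ μ := by
    by_contra hcon
    push Not at hcon
    obtain ⟨K, hKs, hK⟩ := exists_sub _ (Order.succ_le_of_lt hcon)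
    have hKκ : #K < κ := hK.le.trans_lt hμκ
    have hZc : (⋃ y : K, {x | x ∈ S ∧ c x y = none}) ∈ I :=
      hI.iUnion hκ hKκ _ fun y => hKs y.2
    have hbad := hI.union _ _ hZc (htr K hKκ)
    obtain ⟨x, hxS, hx⟩ : ∃ x ∈ S, x ∉ (⋃ y : K, {x | x ∈ S ∧ c x y = none}) ∪ Tr S α c K := by
      by_contra hcon2
      push Not at hcon2
      exact hS (hI.subset _ _ hcon2 hbad)
    have h4 : (K ∩ {y | ¬ c x y = none} : Set _) = K := by
      refine inter_eq_left.2 fun y hy h5 => hx (Or.inl (mem_iUnion.2 ⟨⟨y, hy⟩, hxS, h5⟩))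
    have h5 := hle K x hxS fun h => hx (Or.inr h)
    rw [h4, hK] at h5
    exact absurd (Order.lt_succ μ) (not_lt.2 h5)
  let u : {L : Set κ.ord.ToType // #L < κ} → Set (Order.succ τ).ord.ToType :=
    fun L => {y | ∀ x ∈ L.1, c x y = none}
  let Bad : Set (Order.succ τ).ord.ToType :=
    ⋃ L : {L : {L : Set κ.ord.ToType // #L < κ} // #(u L) ≤ τ}, u L.1
  have hsmall : #{L : Set κ.ord.ToType // #L < κ} ≤ τ :=
    (card_small hs _ (by rw [mk_toType, card_ord])).trans hτκ
  have hBad : #Bad ≤ τ := by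
    refine (mk_iUnion_le _).trans ?_
    have h3 : (⨆ L : {L : {L : Set κ.ord.ToType // #L < κ} // #(u L) ≤ τ}, #(u L.1)) ≤ τ :=
      ciSup_le' fun L => L.2
    exact (mul_le_mul' ((mk_subtype_le _).trans hsmall) h3).trans (mul_eq_self hτ).le
  obtain ⟨y₀, hy₀⟩ : ∃ y₀ : (Order.succ τ).ord.ToType,
      y₀ ∉ Bad ∪ {y | {x | x ∈ S ∧ c x y = none} ∈ I} := by
    by_contra hcon
    push Not at hcon
    have h3 : #(univ : Set (Order.succ τ).ord.ToType) ≤ τ := by
      refine (mk_le_mk_of_subset fun y _ => hcon y).trans ((mk_union_le _ _).trans ?_)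
      exact (add_le_add hBad (hZ.trans (((Order.le_succ μ).trans hμκ.le).trans hκτ))).trans
        (add_eq_self hτ).le
    rw [mk_univ, mk_toType, card_ord] at h3
    exact absurd (Order.lt_succ τ) (not_lt.2 h3)
  have hy1 : y₀ ∉ Bad := fun h => hy₀ (Or.inl h)
  set X : Set κ.ord.ToType := {x | x ∈ S ∧ c x y₀ = none} with hX
  have hXI : X ∉ I := fun h => hy₀ (Or.inr h)
  have hu : ∀ L : {L : {L : Set κ.ord.ToType // #L < κ} // L.1 ⊆ X}, τ < #(u L.1) := by
    intro L
    by_contra hlt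
    push Not at hlt
    exact hy1 (mem_iUnion.2 ⟨⟨L.1, hlt⟩, fun x hx => (L.2 hx).2⟩)
  obtain ⟨J, hJ1, hJ2⟩ := intervals hτ hκτ ((mk_subtype_le _).trans hsmall)
    (fun L : {L : {L : Set κ.ord.ToType // #L < κ} // L.1 ⊆ X} => u L.1) hu (W := β.ToType)
    (by rw [mk_toType]; exact hβ.trans hκτ)
  set D : Type u := (Order.succ μ).out with hD
  have hDc : #D = Order.succ μ := mk_out _
  obtain ⟨φ⟩ : Nonempty (β.ToType × D ↪ κ.ord.ToType) := by
    rw [← Cardinal.le_def, mk_prod, lift_id, lift_id, mk_toType, hDc, mk_toType, card_ord]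
    exact (mul_le_mul' hβ hμκ.le).trans (mul_eq_self hs).le
  -- the choice of the columns
  obtain ⟨y, hy⟩ := exists_seq (I := κ.ord.ToType) (α := (Order.succ τ).ord.ToType)
    (fun i Q z => z ∉ Q ∧ (∀ w d, φ (w, d) = i → z ∈ J w) ∧ ∀ x ∈ X, x < i → c x z = none) (by
    intro i f
    have hQ : #(range f) < κ := mk_range_le.trans_lt (iio_lt i)
    have hL : #(X ∩ Iio i : Set κ.ord.ToType) < κ :=
      (mk_le_mk_of_subset inter_subset_right).trans_lt (iio_lt i)
    have hLX : (X ∩ Iio i : Set κ.ord.ToType) ⊆ X := inter_subset_left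
    have h5 : κ ≤ #({z | ∀ w d, φ (w, d) = i → z ∈ J w} ∩ u ⟨X ∩ Iio i, hL⟩ : Set _) := by
      by_cases hi : ∃ p, φ p = i
      · obtain ⟨⟨w, d⟩, hp⟩ := hi
        refine (hJ2 w ⟨⟨X ∩ Iio i, hL⟩, hLX⟩).trans (mk_le_mk_of_subset ?_)
        rintro z ⟨hz1, hz2⟩
        refine ⟨fun w' d' hw' => ?_, hz2⟩
        have h3 := φ.injective (hw'.trans hp.symm)
        have h4 : w' = w := (Prod.ext_iff.1 h3).1
        rw [h4]
        exact hz1
      · refine (hκτ.trans (hu ⟨⟨X ∩ Iio i, hL⟩, hLX⟩).le).trans (mk_le_mk_of_subset ?_)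
        intro z hz
        exact ⟨fun w d hw => absurd ⟨(w, d), hw⟩ hi, hz⟩
    obtain ⟨z, hz, hzQ⟩ : ∃ z ∈ ({z | ∀ w d, φ (w, d) = i → z ∈ J w} ∩
        u ⟨X ∩ Iio i, hL⟩ : Set _), z ∉ range f := by
      by_contra hcon
      push Not at hcon
      exact absurd ((mk_le_mk_of_subset hcon).trans_lt hQ) (not_lt.2 h5)
    exact ⟨z, hzQ, hz.1, fun x hx hxi => hz.2 x ⟨hx, hxi⟩⟩)
  have hinj : Function.Injective y := by
    intro i j hij
    by_contra hne
    rcases lt_or_gt_of_ne hne with h | h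
    · exact (hy j).1 ⟨i, h, hij⟩
    · exact (hy i).1 ⟨j, h, hij.symm⟩
  -- almost all rows in `X` have at most `μ` places of a colour different from `none`
  have hXbad : {x | x ∈ X ∧ μ < #{j | ¬ c x (y j) = none}} ∈ I := by
    refine hI.subset _ _ ?_ (hI.diag (fun i => Tr S α c (y '' Iic i)) fun i =>
      htr _ (mk_image_le.trans_lt (iic_lt hs i)))
    rintro x ⟨hxX, hx⟩
    by_contra hcon
    have hcon' : ∀ i < x, x ∉ Tr S α c (y '' Iic i) := fun i hi h => hcon ⟨i, hi, h⟩
    -- the places below `x`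
    have h3 : μ < #{j | j < x ∧ ¬ c x (y j) = none} := by
      by_contra hlt
      push Not at hlt
      have h4 : {j | ¬ c x (y j) = none} ⊆ insert x {j | j < x ∧ ¬ c x (y j) = none} := by
        intro j hj
        rcases lt_trichotomy j x with h | h | h
        · exact Or.inr ⟨h, hj⟩
        · exact Or.inl h
        · exact absurd ((hy j).2.2 x hxX h) hj
      have h5 : #{j | ¬ c x (y j) = none} ≤ μ := (mk_le_mk_of_subset h4).trans
        (mk_insert_le.trans ((add_le_add hlt (one_lt_aleph0.le.trans hμθ)).trans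
          (add_eq_self hμθ).le))
      exact absurd hx (not_lt.2 h5)
    have h6 : #(y '' {j | j < x ∧ ¬ c x (y j) = none}) =
        #{j | j < x ∧ ¬ c x (y j) = none} := mk_image_eq hinj
    have h7 : μ < #((y '' Iio x) ∩ {z | ¬ c x z = none} : Set _) := by
      rw [← h6] at h3
      refine h3.trans_le (mk_le_mk_of_subset ?_)
      rintro _ ⟨j, hj, rfl⟩
      exact ⟨⟨j, hj.1, rfl⟩, hj.2⟩
    obtain ⟨n, f, hf, hfK, hc⟩ := exists_mono hθ α hα c _ x h7
    choose m hm1 hm2 using hfK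
    by_cases hb : ∃ i < x, ∀ a, m a ≤ i
    · obtain ⟨i, hi, hb⟩ := hb
      exact hcon' i hi ⟨hxX.1, n, f, hf, fun a => ⟨m a, hb a, hm2 a⟩, hc⟩
    · push Not at hb
      have h8 : {j | j < x ∧ ¬ c x (y j) = none} ⊆
          ⋃ a : (α n).ToType, {j | j ≤ m a ∧ ¬ c x (y j) = none} := by
        rintro j ⟨hj, hj2⟩
        obtain ⟨a, ha⟩ := hb j hj
        exact mem_iUnion.2 ⟨a, ha.le, hj2⟩
      have h9 : ∀ a, #{j | j ≤ m a ∧ ¬ c x (y j) = none} ≤ μ := by
        intro a
        have h10 := hle _ x hxX.1 (hcon' (m a) (hm1 a))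
        have h11 : #(y '' {j | j ≤ m a ∧ ¬ c x (y j) = none}) =
            #{j | j ≤ m a ∧ ¬ c x (y j) = none} := mk_image_eq hinj
        rw [← h11]
        refine (mk_le_mk_of_subset ?_).trans h10
        rintro _ ⟨j, hj, rfl⟩
        exact ⟨⟨j, hj.1, rfl⟩, hj.2⟩
      have h10 : #(⋃ a : (α n).ToType, {j | j ≤ m a ∧ ¬ c x (y j) = none}) ≤ μ := by
        refine (mk_iUnion_le _).trans ?_
        have h11 : (⨆ a : (α n).ToType, #{j | j ≤ m a ∧ ¬ c x (y j) = none}) ≤ μ :=
          ciSup_le' h9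
        refine (mul_le_mul' (?_ : #(α n).ToType ≤ μ) h11).trans (mul_eq_self hμθ).le
        rw [mk_toType]
        exact (hα n).trans (le_max_right _ _)
      exact absurd h3 (not_lt.2 ((mk_le_mk_of_subset h8).trans h10))
  have hX' : {x | x ∈ X ∧ #{j | ¬ c x (y j) = none} ≤ μ} ∉ I := by
    intro h
    refine hXI (hI.subset _ _ ?_ (hI.union _ _ h hXbad))
    intro x hx
    rcases le_or_gt #{j | ¬ c x (y j) = none} μ with h2 | h2
    · exact Or.inl ⟨hx, h2⟩
    · exact Or.inr ⟨hx, h2⟩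
  obtain ⟨d, hd⟩ : ∃ d : D, {x | x ∈ X ∧ ∀ w, c x (y (φ (w, d))) = none} ∉ I := by
    by_contra hcon
    push Not at hcon
    refine hX' (hI.subset _ _ ?_ (hI.iUnion hκ (by rw [hDc]; exact hμκ) _ hcon))
    rintro x ⟨hxX, hx⟩
    by_contra hcon2
    simp only [mem_iUnion, mem_ofPred_eq, not_exists, not_and, not_forall] at hcon2
    choose w hw using fun d => hcon2 d hxX
    have h3 : #D ≤ #{j | ¬ c x (y j) = none} := by
      refine mk_le_of_injective (f := fun d => ⟨φ (w d, d), hw d⟩) ?_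
      intro d d' hdd
      have h4 := φ.injective (congrArg Subtype.val hdd)
      exact (Prod.ext_iff.1 h4).2
    rw [hDc] at h3
    exact absurd (Order.lt_succ μ) (not_lt.2 (h3.trans hx))
  refine h0 ⟨_, fun w => y (φ (w, d)), fun x hx => hx.1.1, hd, ?_, fun x hx w => hx.2 w⟩
  intro w w' hww
  exact hJ1 w w' hww _ ((hy _).2.1 w d rfl) _ ((hy _).2.1 w' d rfl)

end

theorem otp_range {B : Type u} [LinearOrder B] [WellFoundedLT B] (γ : Ordinal.{u})
    (f : γ.ToType → B) (hf : StrictMono f) : otp (range f) = γ := by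
  have h1 : Ordinal.type (fun a b : range f => a < b) =
      Ordinal.type (fun a b : γ.ToType => a < b) :=
    Ordinal.type_eq.2 ⟨(StrictMono.orderIso f hf).symm.toRelIsoLT⟩
  rw [otp, h1, Ordinal.type_toType]

/-- **The general relation.** -/
theorem general {κ θ : Cardinal.{u}} (hκ : κ.IsRegular) (hθ : ℵ₀ ≤ θ)
    (hpow : ∀ μ < κ, μ ^ θ < κ) (B N : Type u) [LinearOrder B] [WellFoundedLT B]
    (hB : κ ^< κ < #B) (hN : Order.succ #N < κ) (β : Ordinal.{u}) (hβ : β.card ≤ κ)
    (α : N → Ordinal.{u}) (hα : ∀ n, (α n).card ≤ θ) (I : Set (Set κ.ord.ToType))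
    (hI : IsNormalIdeal κ I) : OrdPolarized (fun S : Set κ.ord.ToType => S ∉ I) B N β α := by
  classical
  intro S hS c
  obtain ⟨e⟩ : Nonempty ((fun a b : (Order.succ (κ ^< κ)).ord.ToType => a < b) ↪r
      (fun a b : B => a < b)) := by
    refine Ordinal.type_le_iff'.1 ?_
    rw [Ordinal.type_toType, ord_le, Ordinal.card_type]
    exact Order.succ_le_of_lt hB
  have he : StrictMono e := fun a b hab => e.map_rel_iff.2 hab
  by_contra hcon
  rw [not_or] at hcon
  obtain ⟨h0, h1⟩ := hcon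
  refine core hκ hθ hpow hN β hβ α hα _ le_rfl hI S hS (fun x y => c x (e y)) ?_ ?_
  · rintro ⟨H₀, f, hH, hc, hf, hz⟩
    refine h0 ⟨H₀, range (e ∘ f), hH, hc, otp_range β _ (he.comp hf), ?_⟩
    rintro x hx _ ⟨b, rfl⟩
    exact hz x hx b
  · rintro n ⟨H₀, f, hH, hc, hf, hz⟩
    refine h1 ⟨n, H₀, range (e ∘ f), hH, hc, otp_range (α n) _ (he.comp hf), ?_⟩
    rintro x hx _ ⟨b, rfl⟩
    exact hz x hx b

/-- the relation for stationary sets -/
theorem stationary {κ θ : Cardinal.{u}} (hκ : κ.IsRegular) (hθ : ℵ₀ ≤ θ)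
    (hpow : ∀ μ < κ, μ ^ θ < κ) (B N : Type u) [LinearOrder B] [WellFoundedLT B]
    (hB : κ ^< κ < #B) (hN : Order.succ #N < κ) (β : Ordinal.{u}) (hβ : β.card ≤ κ)
    (α : N → Ordinal.{u}) (hα : ∀ n, (α n).card ≤ θ) :
    OrdPolarized (IsStationary (κ := κ)) B N β α := by
  have h := general hκ hθ hpow B N hB hN β hβ α hα _
    (isNormalIdeal_nonstationary hκ (hθ.trans_lt (theta_lt hκ hpow)))
  intro S hS c
  rcases h S (fun h => h hS) c with ⟨H₀, H₁, hH, hc, h2⟩ | ⟨n, H₀, H₁, hH, hc, h2⟩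
  · exact Or.inl ⟨H₀, H₁, hH, not_not.1 hc, h2⟩
  · exact Or.inr ⟨n, H₀, H₁, hH, not_not.1 hc, h2⟩

theorem succ_pow {χ θ : Cardinal.{u}} (hθ : ℵ₀ ≤ θ) (hθχ : θ ≤ χ) (hGCH : GCH.{u}) :
    ∀ μ < Order.succ (Order.succ χ), μ ^ θ < Order.succ (Order.succ χ) := by
  intro μ hμ
  have hχ : ℵ₀ ≤ χ := hθ.trans hθχ
  have h1 : μ ≤ Order.succ χ := Order.lt_succ_iff.1 hμ
  refine Order.lt_succ_of_le ((power_le_power_right h1).trans ?_)
  rw [← hGCH χ hχ, ← power_mul, mul_eq_left hχ hθχ (aleph0_pos.trans_le hθ).ne']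

theorem powerlt_succ_succ {χ : Cardinal.{u}} (hχ : ℵ₀ ≤ χ) (hGCH : GCH.{u}) :
    Order.succ (Order.succ χ) ^< Order.succ (Order.succ χ) = Order.succ (Order.succ χ) := by
  have h1 : ℵ₀ ≤ Order.succ χ := hχ.trans (Order.le_succ χ)
  rw [powerlt_succ (lt_of_lt_of_le (aleph0_pos.trans_le h1) (Order.le_succ _)).ne',
    ← hGCH _ h1, ← power_mul, mul_eq_self h1]

/-- the relation at double successors under GCH -/
theorem underGCH (hGCH : GCH.{u}) (χ : Cardinal.{u}) (hχ : ℵ₀ ≤ χ) (N : Type u) (hN : #N ≤ χ)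
    (β : Ordinal.{u}) (hβ : β < (Order.succ (Order.succ (Order.succ χ))).ord)
    (α : N → Ordinal.{u}) (hα : ∀ n, α n < (Order.succ χ).ord) :
    OrdPolarized (IsStationary (κ := Order.succ (Order.succ χ)))
      (Order.succ (Order.succ (Order.succ χ))).ord.ToType N β α := by
  refine stationary (isRegular_succ (hχ.trans (Order.le_succ χ))) hχ (succ_pow hχ le_rfl hGCH)
    _ _ ?_ ?_ β ?_ α ?_
  · rw [powerlt_succ_succ hχ hGCH, mk_toType, card_ord]
    exact Order.lt_succ _
  · exact (Order.succ_le_succ hN).trans_lt (Order.lt_succ _)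
  · exact Order.lt_succ_iff.1 (lt_ord.1 hβ)
  · exact fun n => Order.lt_succ_iff.1 (lt_ord.1 (hα n))

/-- **Polarized relations with ordinal goals on stationary sets.**

(1) (ZFC) Let `κ` be a regular cardinal and `θ` an infinite cardinal with `μ ^ θ < κ` for all
`μ < κ`, let `B` be a well-ordered set with more than `κ^{<κ}` elements and `N` a set with
`|N|⁺ < κ`. Let `β` and `α n`, `n ∈ N`, be ordinals with `|β| ≤ κ` and `|α n| ≤ θ`. Let `I` be a
normal ideal on `κ`, for instance the nonstationary ideal. Then for every `S ⊆ κ` outside `I` and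
every colouring of `κ × B` with the colours `none` and `some n`, `n ∈ N`, there are `H₀ ⊆ S` outside
`I` and `H₁ ⊆ B` such that `H₁` has the order type `β` and `H₀ × H₁` the colour `none`, or `H₁` has
the order type `α n` and `H₀ × H₁` the colour `some n`, for some `n`.

(2) (GCH) Hence, for every infinite cardinal `χ` and `κ = χ⁺⁺`, this holds for the stationary subsets
of `κ`, the well-ordered set `B = κ⁺`, all `β < κ⁺`, all sets `N` with at most `χ` elements and all
`α n < χ⁺`.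

(3) (GCH) In particular it holds for the stationary subsets of `ω₂`, for `B = ω₃`, for all `β < ω₃`
and for countably many colours with countable ordinals `α n`. Stationary subsets of `ω₂` have
`ℵ₂` elements and `ω₂` is one of them, and the relation `(∗)` of the problem follows. -/
theorem result :
    (∀ κ θ : Cardinal.{u}, κ.IsRegular → ℵ₀ ≤ θ → (∀ μ < κ, μ ^ θ < κ) →
      ∀ (B N : Type u) [LinearOrder B] [WellFoundedLT B], κ ^< κ < #B → Order.succ #N < κ →
      ∀ (β : Ordinal.{u}) (α : N → Ordinal.{u}), β.card ≤ κ → (∀ n, (α n).card ≤ θ) →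
        (∀ I : Set (Set κ.ord.ToType), IsNormalIdeal κ I →
          OrdPolarized (fun S : Set κ.ord.ToType => S ∉ I) B N β α) ∧
        OrdPolarized (IsStationary (κ := κ)) B N β α) ∧
    (GCH.{u} → ∀ χ : Cardinal.{u}, ℵ₀ ≤ χ → ∀ N : Type u, #N ≤ χ →
      ∀ (β : Ordinal.{u}) (α : N → Ordinal.{u}),
        β < (Order.succ (Order.succ (Order.succ χ))).ord → (∀ n, α n < (Order.succ χ).ord) →
        OrdPolarized (IsStationary (κ := Order.succ (Order.succ χ)))
          (Order.succ (Order.succ (Order.succ χ))).ord.ToType N β α) ∧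
    (GCH.{0} →
      (∀ (β : Ordinal.{0}) (α : ℕ → Ordinal.{0}), β < (ℵ_ 3).ord → (∀ n, α n < (ℵ_ 1).ord) →
        OrdPolarized (IsStationary (κ := ℵ_ 2)) (ℵ_ 3).ord.ToType ℕ β α) ∧
      IsStationary (univ : Set (ℵ_ 2 : Cardinal.{0}).ord.ToType) ∧
      (∀ S : Set (ℵ_ 2 : Cardinal.{0}).ord.ToType, IsStationary S → #S = ℵ_ 2) ∧
      Polarized (ℵ_ 2 : Cardinal.{0}) (ℵ_ 3) (ℵ_ 2) (ℵ_ 2) (ℵ_ 2) (ℵ_ 0)) := by
  refine ⟨fun κ θ hκ hθ hpow B N _ _ hB hN β α hβ hα =>
      ⟨fun I hI => general hκ hθ hpow B N hB hN β hβ α hα I hI,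
        stationary hκ hθ hpow B N hB hN β hβ α hα⟩,
    fun hGCH χ hχ N hN β α hβ hα => underGCH hGCH χ hχ N hN β hβ α hα, ?_⟩
  intro hGCH
  have h1 : Order.succ (ℵ₀ : Cardinal.{0}) = ℵ_ 1 := succ_aleph0
  have h2 : Order.succ (ℵ_ 1 : Cardinal.{0}) = ℵ_ 2 := by
    rw [succ_aleph]; norm_num
  have h3 : Order.succ (ℵ_ 2 : Cardinal.{0}) = ℵ_ 3 := by
    rw [succ_aleph]; norm_num
  have main : ∀ (N : Type) (_ : #N ≤ ℵ₀) (β : Ordinal.{0}) (α : N → Ordinal.{0}),
      β < (ℵ_ 3).ord → (∀ n, α n < (ℵ_ 1).ord) →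
      OrdPolarized (IsStationary (κ := ℵ_ 2)) (ℵ_ 3).ord.ToType N β α := by
    intro N hN β α hβ hα
    have h := underGCH hGCH ℵ₀ le_rfl N hN β (by rw [h1, h2, h3]; exact hβ) α
      (by rw [h1]; exact hα)
    rwa [h1, h2, h3] at h
  have hreg : (ℵ_ 2 : Cardinal.{0}).IsRegular := by
    rw [← h2, ← h1]
    exact isRegular_succ (le_rfl.trans (Order.le_succ _))
  refine ⟨fun β α hβ hα => main ℕ (by simp) β α hβ hα, isStationary_univ hreg,
    fun S hS => hS.mk hreg, ?_⟩
  intro A B hA hB c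
  obtain ⟨e⟩ : Nonempty ((ℵ_ 3 : Cardinal.{0}).ord.ToType ≃ B) := by
    refine Cardinal.eq.1 ?_
    rw [mk_toType, card_ord, hB]
  obtain ⟨a⟩ : Nonempty ((ℵ_ 2 : Cardinal.{0}).ord.ToType ≃ A) := by
    refine Cardinal.eq.1 ?_
    rw [mk_toType, card_ord, hA]
  have hcard : ∀ (s : Set (ℵ_ 3 : Cardinal.{0}).ord.ToType) (γ : Cardinal.{0}),
      otp s = γ.ord → #(e '' s) = γ := by
    intro s γ hs
    have h4 := congrArg Ordinal.card hs
    rw [otp, Ordinal.card_type, card_ord] at h4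
    rw [mk_image_eq e.injective, h4]
  have h := main Unit (by simp) (ℵ_ 2).ord (fun _ => (ℵ_ 0).ord)
    (ord_lt_ord.2 (aleph_lt_aleph.2 (by norm_num)))
    (fun _ => ord_lt_ord.2 (aleph_lt_aleph.2 (by norm_num))) univ (isStationary_univ hreg)
    (fun x y => if c (a x) (e y) = true then some () else none)
  rcases h with ⟨H₀, H₁, -, hc0, hc1, hz⟩ | ⟨n, H₀, H₁, -, hc0, hc1, hz⟩
  · refine Or.inl ⟨a '' H₀, e '' H₁, by rw [mk_image_eq a.injective, hc0.mk hreg],
      hcard _ _ hc1, ?_⟩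
    rintro _ ⟨x, hx, rfl⟩ _ ⟨y, hy, rfl⟩
    have h5 := hz x hx y hy
    by_contra hne
    have h6 : c (a x) (e y) = true := by
      cases h : c (a x) (e y)
      · exact absurd h hne
      · rfl
    rw [if_pos h6] at h5
    exact absurd h5 (by simp)
  · refine Or.inr ⟨a '' H₀, e '' H₁, by rw [mk_image_eq a.injective, hc0.mk hreg],
      hcard _ _ hc1, ?_⟩
    rintro _ ⟨x, hx, rfl⟩ _ ⟨y, hy, rfl⟩
    have h5 := hz x hx y hy
    by_contra hne
    rw [if_neg hne] at h5
    exact absurd h5 (by simp)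

end Pool.Agent.Results.MP_5cad05_lc.OrdinalGoals
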